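import Pool.Agent.Helper5.FV.Stmts

set_option autoImplicit false

open Finset

namespace Pool.Agent.Helper14.FV

open Pool.Agent.Helper8.UN Pool.Agent.Helper5.FV

theorem wm1_large : ∃ n₀ : ℕ, ∀ n ≥ n₀, 4000 ≤ Real.log n ∧
    1000000 * Real.log n ^ 2 ≤ n := by
  have h1 : ∀ᶠ x : ℝ in Filter.atTop, 4000 ≤ Real.log x :=
    Real.tendsto_log_atTop.eventually_ge_atTop 4000
  have h2 : ∀ᶠ x : ℝ in Filter.atTop, ‖Real.log x ^ 2‖ ≤ 1 / 1000000 * ‖x‖ := by
    have := (Real.isLittleO_pow_log_id_atTop (n := 2)).def (c := 1 / 1000000) (by norm_num)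
    simpa using this
  have h3 := (h1.and (h2.and (Filter.eventually_ge_atTop 0)))
  have h4 := tendsto_natCast_atTop_atTop (R := ℝ) |>.eventually h3
  obtain ⟨n₀, hn⟩ := Filter.eventually_atTop.1 h4
  refine ⟨n₀, fun n hn' => ?_⟩
  obtain ⟨a, b, c⟩ := hn n hn'
  refine ⟨a, ?_⟩
  rw [Real.norm_of_nonneg (by positivity), Real.norm_of_nonneg c] at b
  linarith

theorem st_WM1 : ST_WM1 := by
  obtain ⟨n₀, hn₀⟩ := wm1_large
  refine ⟨n₀, fun n hn p hW m k hm1 hm2 hk1 hk2 => ?_⟩
  obtain ⟨hL, hn2⟩ := hn₀ n hn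
  set L := Real.log n with hLdef
  have hL0 : 0 < L := by linarith
  have hnpos : (0 : ℝ) < n := by nlinarith
  set x : ℝ := (n : ℝ) / L with hx
  have hxL : x * L = n := by rw [hx]; field_simp
  have hx0 : 0 < x := by positivity
  
  have hxL2 : 1000000 * L ≤ x := by
    rw [hx, le_div_iff₀ hL0]; nlinarith
  have hm0 : (0 : ℝ) < m := by linarith
  have hk0 : (0 : ℝ) < k := by linarith
  have hLm : 7 * L ≤ 2 / 100000 * (m : ℝ) := by linarith
  have hmm : (0 : ℝ) < (m : ℝ) * m := mul_pos hm0 hm0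
  obtain ⟨hp1, hp2, hp3, hlow, hup⟩ := hW k (by linarith) (by linarith)
  clear_value x L
  have hlam : 0 < lam p k := by unfold lam; positivity
  have hlam1e : lam p (k + 1) = ((k : ℝ) + 1) * p k / p (k + 1) := by
    unfold lam; simp
  have hlam1 : 0 < lam p (k + 1) := by rw [hlam1e]; positivity
  refine ⟨hlam, hlam1, ?_, ?_⟩
  · -- lower bound
    have hw : (n : ℝ) / (m : ℝ) ^ 2 ≤ 1 / 100000 := by
      rw [div_le_iff₀ (by positivity)]
      have h1 : (68 / 100 * x) ^ 2 ≤ (m : ℝ) ^ 2 := by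
        apply pow_le_pow_left₀ (by positivity) hm1
      have h2 : (n : ℝ) ≤ x ^ 2 / 1000000 := by
        rw [← hxL]
        have := mul_le_mul_of_nonneg_left hxL2 hx0.le
        linarith
      have h3 : (0 : ℝ) < x * x := mul_pos hx0 hx0
      linarith
    have hw0 : 0 ≤ (n : ℝ) / (m : ℝ) ^ 2 := by positivity
    set w : ℝ := (n : ℝ) / (m : ℝ) ^ 2 with hwdef
    have hexp : Real.exp (998 / 1000 * w) ≤ 1 + 99801 / 100000 * w := by
      have h := Real.abs_exp_sub_one_sub_id_le (x := 998 / 1000 * w)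
        (by rw [abs_of_nonneg (by positivity)]; linarith)
      have h2 := (abs_le.1 h).2
      have h3 := mul_le_mul_of_nonneg_left hw hw0
      linarith
    have hu : 99995 / 100000 * w ≤ (n : ℝ) / ((k : ℝ) * (k + 1)) := by
      rw [hwdef, le_div_iff₀ (by positivity), mul_comm (99995 / 100000 : ℝ), div_mul_eq_mul_div,
        div_mul_eq_mul_div, div_le_iff₀ (by positivity)]
      have h1 : (k : ℝ) + 1 ≤ (1 + 2 / 100000) * m := by linarith
      have h2 : (k : ℝ) * (k + 1) ≤ (1 + 5 / 100000) * (m : ℝ) ^ 2 := by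
        have h3 : (k : ℝ) * (k + 1) ≤ ((1 + 2 / 100000) * m) * ((1 + 2 / 100000) * m) := by
          apply mul_le_mul _ h1 (by positivity) (by positivity)
          linarith
        linarith
      have h5 := mul_le_mul_of_nonneg_left h2 hnpos.le
      have h6 : (0 : ℝ) < n * (m * m) := mul_pos hnpos hmm
      linarith
    have key : Real.exp (998 / 1000 * w) * (p (k - 1) * p (k + 1)) ≤ p k ^ 2 := by
      refine le_trans ?_ hlow
      apply mul_le_mul_of_nonneg_right _ (by positivity)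
      linarith
    rw [hlam1e]
    unfold lam
    rw [div_mul_eq_mul_div, div_le_div_iff₀ hp2 hp3]
    have hk' : (k : ℝ) * (Real.exp (998 / 1000 * w) * (p (k - 1) * p (k + 1))) ≤
        ((k : ℝ) + 1) * p k ^ 2 := by
      apply mul_le_mul (by linarith) key (by positivity) (by positivity)
    linarith
  · -- upper bound
    set w : ℝ := (n : ℝ) / (m : ℝ) ^ 2 with hwdef
    have hw0 : 0 < w := by positivity
    have hkm : (1 - 2 / 100000) * (m : ℝ) ≤ k := by linarith
    have h1 : (n : ℝ) / (k : ℝ) ^ 2 ≤ (1 + 5 / 100000) * w := by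
      rw [hwdef, div_le_iff₀ (by positivity), mul_div_assoc', div_mul_eq_mul_div,
        le_div_iff₀ (by positivity)]
      have h3 : ((1 - 2 / 100000) * (m : ℝ)) ^ 2 ≤ (k : ℝ) ^ 2 :=
        pow_le_pow_left₀ (by positivity) hkm 2
      have h4 := mul_le_mul_of_nonneg_left h3 hnpos.le
      have h5 : (0 : ℝ) < n * (m * m) := mul_pos hnpos hmm
      linarith
    have h2 : 1 / (k : ℝ) ≤ 4 / 10000 * w := by
      rw [hwdef, div_le_iff₀ hk0, mul_div_assoc', div_mul_eq_mul_div, le_div_iff₀ (by positivity)]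
      -- m^2 ≤ .0004 n k
      have h4 : (m : ℝ) * 3000 ≤ n := by
        rw [← hxL]
        have := mul_le_mul_of_nonneg_left hL hx0.le
        linarith
      have h5 : (m : ℝ) ≤ 4 / 10000 * 3000 * k := by linarith
      have h6 := mul_le_mul_of_nonneg_left h5 hm0.le
      have h7 := mul_le_mul_of_nonneg_left h4 hk0.le
      linarith
    have hk1' : 1 + 1 / (k : ℝ) ≤ Real.exp (1 / (k : ℝ)) := by
      have := Real.add_one_le_exp (1 / (k : ℝ)); linarith
    have hfin : (1 + 1 / (k : ℝ)) * Real.exp (10045 / 10000 * ((n : ℝ) / (k : ℝ) ^ 2)) ≤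
        Real.exp (1005 / 1000 * w) := by
      calc (1 + 1 / (k : ℝ)) * Real.exp (10045 / 10000 * ((n : ℝ) / (k : ℝ) ^ 2))
          ≤ Real.exp (1 / (k : ℝ)) * Real.exp (10045 / 10000 * ((n : ℝ) / (k : ℝ) ^ 2)) :=
            mul_le_mul_of_nonneg_right hk1' (Real.exp_pos _).le
        _ = Real.exp (1 / (k : ℝ) + 10045 / 10000 * ((n : ℝ) / (k : ℝ) ^ 2)) := by
            rw [Real.exp_add]
        _ ≤ Real.exp (1005 / 1000 * w) := by
            apply Real.exp_le_exp.2
            linarith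
    rw [hlam1e]
    unfold lam
    rw [div_mul_eq_mul_div, div_le_div_iff₀ hp3 hp2]
    have h6 : ((k : ℝ) + 1) * p k ^ 2 ≤
        (k : ℝ) * (Real.exp (1005 / 1000 * w) * (p (k - 1) * p (k + 1))) := by
      calc ((k : ℝ) + 1) * p k ^ 2
          ≤ ((k : ℝ) + 1) * (Real.exp (10045 / 10000 * ((n : ℝ) / (k : ℝ) ^ 2)) *
            (p (k - 1) * p (k + 1))) := mul_le_mul_of_nonneg_left hup (by positivity)
        _ = (k : ℝ) * (((1 + 1 / (k : ℝ)) * Real.exp (10045 / 10000 * ((n : ℝ) / (k : ℝ) ^ 2))) *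
            (p (k - 1) * p (k + 1))) := by field_simp
        _ ≤ _ := by
            apply mul_le_mul_of_nonneg_left _ (by positivity)
            apply mul_le_mul_of_nonneg_right hfin (by positivity)
    linarith

end Pool.Agent.Helper14.FV
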